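import Mathlib
import Pool.Agent.TH950.FC.Defs

set_option autoImplicit false

/-! Counting walks of a graph of bounded degree; edges of non-backtracking walks. -/

namespace TH444.FC

open Finset

section count

variable {V : Type} [Fintype V] [DecidableEq V] (G : SimpleGraph V)

open Classical in
/-- the walks of length `r` starting at `x`, as lists of vertices -/
noncomputable def wf : ℕ → V → Finset (List V)
  | 0, x => {[x]}
  | r + 1, x => (univ.filter (G.Adj x)).biUnion (fun y => (wf r y).image (List.cons x))

lemma mem_wf {r : ℕ} {x : V} {p : List V} :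
    p ∈ wf G r x ↔ p.length = r + 1 ∧ p.head? = some x ∧ p.IsChain G.Adj := by
  classical
  induction r generalizing x p with
  | zero =>
    simp only [wf, mem_singleton, zero_add, List.length_eq_one_iff]
    constructor
    · rintro rfl; exact ⟨⟨x, rfl⟩, rfl, List.isChain_singleton x⟩
    · rintro ⟨⟨a, rfl⟩, h, -⟩
      simpa using h
  | succ r ih =>
    simp only [wf, mem_biUnion, mem_filter, mem_univ, true_and, mem_image]
    constructor
    · rintro ⟨y, hy, q, hq, rfl⟩
      obtain ⟨h1, h2, h3⟩ := ih.1 hq
      refine ⟨by simp [h1], rfl, ?_⟩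
      cases q with
      | nil => simp at h1
      | cons a q =>
        simp only [List.head?_cons, Option.some.injEq] at h2
        subst h2
        exact List.isChain_cons_cons.2 ⟨hy, h3⟩
    · rintro ⟨h1, h2, h3⟩
      cases p with
      | nil => simp at h1
      | cons a p =>
        simp only [List.head?_cons, Option.some.injEq] at h2
        subst h2
        cases p with
        | nil => simp at h1
        | cons b p =>
          obtain ⟨h4, h5⟩ := List.isChain_cons_cons.1 h3
          exact ⟨b, h4, b :: p, ih.2 ⟨by simpa using h1, rfl, h5⟩, rfl⟩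

open Classical in
lemma card_wf {Δ : ℕ} (hΔ : ∀ v, (univ.filter (G.Adj v)).card ≤ Δ) (r : ℕ) (x : V) :
    (wf G r x).card ≤ Δ ^ r := by
  induction r generalizing x with
  | zero => simp [wf]
  | succ r ih =>
    rw [wf]
    refine Finset.card_biUnion_le.trans ?_
    refine (Finset.sum_le_card_nsmul _ _ (Δ ^ r) ?_).trans ?_
    · intro y _
      exact Finset.card_image_le.trans (ih y)
    · rw [smul_eq_mul, pow_succ, mul_comm]
      exact Nat.mul_le_mul_left _ (hΔ x)

/-- all walks of length `L` -/
noncomputable def W (L : ℕ) : Finset (List V) := univ.biUnion (wf G L)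

lemma mem_W {L : ℕ} {p : List V} : p ∈ W G L ↔ p.length = L + 1 ∧ p.IsChain G.Adj := by
  unfold W
  simp only [mem_biUnion, mem_univ, true_and, mem_wf]
  constructor
  · rintro ⟨x, h1, -, h3⟩; exact ⟨h1, h3⟩
  · rintro ⟨h1, h3⟩
    cases p with
    | nil => simp at h1
    | cons a p => exact ⟨a, h1, rfl, h3⟩

open Classical in
lemma card_W {Δ : ℕ} (hΔ : ∀ v, (univ.filter (G.Adj v)).card ≤ Δ) (L : ℕ) :
    (W G L).card ≤ Fintype.card V * Δ ^ L := by
  unfold W
  refine Finset.card_biUnion_le.trans ?_
  refine (Finset.sum_le_card_nsmul _ _ (Δ ^ L) ?_).trans ?_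
  · intro y _
    exact card_wf G hΔ L y
  · rw [smul_eq_mul]; rfl

open Classical in
lemma card_W_at {Δ : ℕ} (hΔ : ∀ v, (univ.filter (G.Adj v)).card ≤ Δ) (L k : ℕ) (hk : k ≤ L)
    (x : V) : ((W G L).filter (fun p => p[k]? = some x)).card ≤ Δ ^ L := by
  have h1 : ((W G L).filter (fun p => p[k]? = some x)).card ≤
      (wf G k x ×ˢ wf G (L - k) x).card := by
    apply Finset.card_le_card_of_injOn (fun p => ((p.take (k + 1)).reverse, p.drop k))
    · intro p hp
      obtain ⟨hp1, hp2⟩ := mem_filter.1 hp
      obtain ⟨hp3, hp4⟩ := (mem_W G).1 hp1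
      rw [Finset.mem_coe, Finset.mem_product, mem_wf, mem_wf]
      refine ⟨⟨?_, ?_, ?_⟩, ⟨?_, ?_, ?_⟩⟩
      · simp only [List.length_reverse, List.length_take]
        omega
      · simp only [List.head?_reverse]
        rw [List.getLast?_eq_getElem?, List.length_take, List.getElem?_take]
        have : min (k + 1) p.length - 1 = k := by omega
        rw [this, if_pos (by omega)]
        exact hp2
      · change ((p.take (k + 1)).reverse).IsChain G.Adj
        rw [List.isChain_reverse]
        have h2 := hp4.take (k + 1)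
        exact h2.imp (fun _ _ h => h.symm)
      · simp only [List.length_drop]
        omega
      · change (p.drop k).head? = some x
        rw [List.head?_drop]; exact hp2
      · exact hp4.drop k
    · intro p hp p' hp' h
      simp only [Prod.mk.injEq, List.reverse_inj] at h
      obtain ⟨h1, h2⟩ := h
      have h3 : p.drop (k + 1) = p'.drop (k + 1) := by
        have := congrArg (List.drop 1) h2
        simpa [List.drop_drop, add_comm] using this
      rw [← List.take_append_drop (k + 1) p, h1, h3, List.take_append_drop]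
  refine h1.trans ?_
  rw [Finset.card_product]
  refine (Nat.mul_le_mul (card_wf G hΔ _ _) (card_wf G hΔ _ _)).trans ?_
  rw [← pow_add]
  have : k + (L - k) = L := by omega
  rw [this]

open Classical in
lemma card_W_mem {Δ : ℕ} (hΔ : ∀ v, (univ.filter (G.Adj v)).card ≤ Δ) (L : ℕ)
    (x : V) : ((W G L).filter (fun p => x ∈ p)).card ≤ (L + 1) * Δ ^ L := by
  have h1 : (W G L).filter (fun p => x ∈ p) ⊆
      (range (L + 1)).biUnion (fun k => (W G L).filter (fun p => p[k]? = some x)) := by
    intro p hp
    obtain ⟨hp1, hp2⟩ := mem_filter.1 hp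
    obtain ⟨k, hk, hkx⟩ := List.mem_iff_getElem.1 hp2
    have hlen := ((mem_W G).1 hp1).1
    refine mem_biUnion.2 ⟨k, mem_range.2 (by omega), mem_filter.2 ⟨hp1, ?_⟩⟩
    rw [List.getElem?_eq_getElem hk, hkx]
  refine (Finset.card_le_card h1).trans (Finset.card_biUnion_le.trans ?_)
  refine (Finset.sum_le_card_nsmul _ _ (Δ ^ L) ?_).trans ?_
  · intro k hk
    exact card_W_at G hΔ L k (by have := mem_range.1 hk; omega) x
  · rw [smul_eq_mul, card_range]

end count

section edges

variable {V : Type}

/-- the edges of a walk, in order -/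
def ed (p : List V) : List (Sym2 V) := (p.zip p.tail).map (fun e => s(e.1, e.2))

lemma length_ed (p : List V) : (ed p).length = p.length - 1 := by
  simp [ed]

lemma getElem_ed (p : List V) (k : ℕ) (hk : k < (ed p).length) :
    (ed p)[k] = s(p[k]'(by rw [length_ed] at hk; omega), p[k+1]'(by rw [length_ed] at hk; omega)) := by
  simp [ed]

lemma word_eq {C : Type} (c : Sym2 V → C) (p : List V) :
    Pool.Agent.TH950.FC.word c p = (ed p).map c := by
  unfold Pool.Agent.TH950.FC.word ed
  rw [List.map_map]
  rfl

lemma mem_of_mem_ed {p : List V} {x y : V} (h : s(x, y) ∈ ed p) : x ∈ p := by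
  obtain ⟨k, hk, hkx⟩ := List.mem_iff_getElem.1 h
  rw [getElem_ed, Sym2.eq_iff] at hkx
  rcases hkx with ⟨h1, -⟩ | ⟨-, h1⟩ <;> rw [← h1] <;> exact List.getElem_mem _

end edges

end TH444.FC
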