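import Mathlib
import Pool.Agent.TH444.FC.Walk

set_option autoImplicit false

/-! Non-backtracking walks in graphs of large girth. -/

namespace TH444.FC

open Finset
open Pool.Agent.TH950.FC (NBWalk word)

variable {V : Type}

/-- uniqueness of short non-backtracking walks -/
def Hun (G : SimpleGraph V) (g : ℕ) : Prop :=
  ∀ p q : List V, NBWalk G p → NBWalk G q → p.head? = q.head? →
    p.getLast? = q.getLast? → (p.length - 1) + (q.length - 1) < g → p = q

/-- a piece of a list -/
def sub (p : List V) (s r : ℕ) : List V := (p.drop s).take (r + 1)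

lemma length_sub {p : List V} {s r : ℕ} (h : s + r < p.length) : (sub p s r).length = r + 1 := by
  simp [sub]; omega

lemma getElem_sub {p : List V} {s r : ℕ} (h : s + r < p.length) (k : ℕ) (hk : k < r + 1) :
    (sub p s r)[k]'(by rw [length_sub h]; exact hk) = p[s + k] := by
  simp [sub]

lemma nb_sub {G : SimpleGraph V} {p : List V} (hp : NBWalk G p) {s r : ℕ} (h : s + r < p.length) :
    NBWalk G (sub p s r) := by
  have hl := length_sub h
  refine ⟨?_, ?_, ?_⟩
  · intro h0
    rw [h0] at hl
    simp at hl
  · intro i hi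
    rw [hl] at hi
    rw [getElem_sub h i (by omega), getElem_sub h (i + 1) (by omega)]
    exact hp.2.1 (s + i) (by omega)
  · intro i hi
    rw [hl] at hi
    rw [getElem_sub h i (by omega), getElem_sub h (i + 2) (by omega)]
    exact hp.2.2 (s + i) (by omega)

lemma head?_sub {p : List V} {s r : ℕ} (h : s + r < p.length) :
    (sub p s r).head? = some (p[s]) := by
  rw [List.head?_eq_getElem?, List.getElem?_eq_getElem (by rw [length_sub h]; omega),
    getElem_sub h 0 (by omega)]
  simp

lemma getLast?_sub {p : List V} {s r : ℕ} (h : s + r < p.length) :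
    (sub p s r).getLast? = some (p[s + r]) := by
  rw [List.getLast?_eq_getElem?, length_sub h, Nat.add_sub_cancel,
    List.getElem?_eq_getElem (by rw [length_sub h]; omega), getElem_sub h r (by omega)]

lemma length_ed_sub {p : List V} {s r : ℕ} (h : s + r < p.length) :
    (ed (sub p s r)).length = r := by
  rw [length_ed, length_sub h]; rfl

lemma getElem_ed_sub {p : List V} {s r : ℕ} (h : s + r < p.length) (k : ℕ) (hk : k < r) :
    (ed (sub p s r))[k]'(by rw [length_ed_sub h]; exact hk) =
      (ed p)[s + k]'(by rw [length_ed]; omega) := by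
  rw [getElem_ed, getElem_ed, getElem_sub h k (by omega), getElem_sub h (k + 1) (by omega)]
  rfl

lemma nb_single (G : SimpleGraph V) (x : V) : NBWalk G [x] :=
  ⟨by simp, fun i hi => by simp at hi, fun i hi => by simp at hi⟩

lemma nb_nodup {G : SimpleGraph V} {g : ℕ} (hun : Hun G g) {p : List V} (hp : NBWalk G p)
    (hlen : p.length - 1 < g) : p.Nodup := by
  rw [List.Nodup, List.pairwise_iff_getElem]
  intro i j hi hj hij heq
  have h : i + (j - i) < p.length := by omega
  have h1 := hun (sub p i (j - i)) [p[i]] (nb_sub hp h) (nb_single G _)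
    (by rw [head?_sub h]; rfl) (by
      rw [getLast?_sub h]
      simp only [List.getLast?_singleton, Option.some.injEq]
      have : i + (j - i) = j := by omega
      simp only [this]
      exact heq.symm) (by rw [length_sub h]; simp; omega)
  have h2 := congrArg List.length h1
  rw [length_sub h] at h2
  simp at h2
  omega

lemma ed_nodup {p : List V} (hp : p.Nodup) : (ed p).Nodup := by
  rw [List.Nodup, List.pairwise_iff_getElem]
  intro i j hi hj hij heq
  rw [length_ed] at hi hj
  rw [getElem_ed, getElem_ed, Sym2.eq_iff] at heq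
  rcases heq with ⟨h1, -⟩ | ⟨h1, h2⟩
  · have := (List.Nodup.getElem_inj_iff hp).1 h1
    omega
  · have h3 := (List.Nodup.getElem_inj_iff hp).1 h1
    have h4 := (List.Nodup.getElem_inj_iff hp).1 h2
    omega

lemma map_getElem {C : Type} {c : Sym2 V → C} {p q : List V}
    (h : (ed p).map c = (ed q).map c) (k : ℕ) (hk : k < (ed p).length) (hk' : k < (ed q).length) :
    c (ed p)[k] = c (ed q)[k] := by
  have h1 : ((ed p).map c)[k]? = ((ed q).map c)[k]? := by rw [h]
  rw [List.getElem?_map, List.getElem?_map, List.getElem?_eq_getElem hk,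
    List.getElem?_eq_getElem hk'] at h1
  simpa using h1

/-- equal vertices at one place propagate to the heads -/
lemma heads_eq {C : Type} {G : SimpleGraph V} {p q : List V} (hp : NBWalk G p) (hq : NBWalk G q)
    {c : Sym2 V → C}
    (hprop : ∀ u v w, G.Adj u v → G.Adj u w → v ≠ w → c s(u, v) ≠ c s(u, w))
    (hw : (ed p).map c = (ed q).map c) (k : ℕ) (hk : k < p.length) (hk' : k < q.length)
    (h : p[k] = q[k]) : p.head? = q.head? := by
  induction k with
  | zero =>
    rw [List.head?_eq_getElem?, List.head?_eq_getElem?, List.getElem?_eq_getElem hk,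
      List.getElem?_eq_getElem hk', h]
  | succ k ih =>
    apply ih (by omega) (by omega)
    by_contra hne
    have h1 := map_getElem hw k (by rw [length_ed]; omega) (by rw [length_ed]; omega)
    rw [getElem_ed, getElem_ed, Sym2.eq_swap, Sym2.eq_swap (a := q[k])] at h1
    have h2 := hp.2.1 k hk
    have h3 := hq.2.1 k hk'
    rw [← h] at h3 h1
    exact hprop _ _ _ h2.symm h3.symm hne h1

/-- the reduction to pairs of walks without coincidences -/
theorem exists_pair {C : Type} {G : SimpleGraph V} {g : ℕ} (hun : Hun G g) {l : ℕ}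
    (hl : 2 * l < g) {p q : List V} (hp : NBWalk G p) (hq : NBWalk G q) (hpl : p.length = l + 1)
    (hql : q.length = l + 1) {c : Sym2 V → C}
    (hprop : ∀ u v w, G.Adj u v → G.Adj u w → v ≠ w → c s(u, v) ≠ c s(u, w))
    (hw : (ed p).map c = (ed q).map c) (hhead : p.head? ≠ q.head?) (L : ℕ)
    (hL : 2 * L + 1 ≤ l) : ∃ p' q', NBWalk G p' ∧ NBWalk G q' ∧ p'.length = L + 1 ∧
      q'.length = L + 1 ∧ (ed p').map c = (ed q').map c ∧
      ∀ k < L, (ed p')[k]? ≠ (ed q')[k]? := by
  have hpe : (ed p).length = l := by rw [length_ed, hpl]; rfl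
  have hqe : (ed q).length = l := by rw [length_ed, hql]; rfl
  -- coincidences are opposite
  have hopp : ∀ k (hk : k < l), (ed p)[k] = (ed q)[k] → p[k] = q[k+1] ∧ p[k+1] = q[k] := by
    intro k hk h
    rw [getElem_ed, getElem_ed, Sym2.eq_iff] at h
    rcases h with ⟨h1, -⟩ | h
    · exact absurd (heads_eq hp hq hprop hw k (by omega) (by omega) h1) hhead
    · exact h
  -- at most one coincidence
  have hone : ∀ k k' (hk : k < k') (hk' : k' < l), (ed p)[k] = (ed q)[k] →
      (ed p)[k'] = (ed q)[k'] → False := by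
    intro k k' hk hk' h h'
    obtain ⟨h1, h2⟩ := hopp k (by omega) h
    obtain ⟨h3, h4⟩ := hopp k' hk' h'
    have e1 : (k + 1) + (k' - k - 1) < p.length := by omega
    have e2 : k + (k' - k + 1) < q.length := by omega
    have h5 := hun _ _ (nb_sub hp e1) (nb_sub hq e2) (by
      rw [head?_sub e1, head?_sub e2, h2]) (by
      rw [getLast?_sub e1, getLast?_sub e2]
      have e3 : k + 1 + (k' - k - 1) = k' := by omega
      have e4 : k + (k' - k + 1) = k' + 1 := by omega
      simp only [e3, e4]
      rw [h3]) (by rw [length_sub e1, length_sub e2]; omega)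
    have h6 := congrArg List.length h5
    rw [length_sub e1, length_sub e2] at h6
    omega
  -- choose the place
  obtain ⟨s, hs, hsk⟩ : ∃ s, s + L ≤ l ∧ ∀ k (hk : k < L) (h : s + k < l),
      (ed p)[s + k] ≠ (ed q)[s + k] := by
    by_cases hex : ∃ k, ∃ hk : k < L, (ed p)[k] = (ed q)[k]
    · obtain ⟨k0, hk0, h0⟩ := hex
      refine ⟨k0 + 1, by omega, ?_⟩
      intro k hk h h1
      exact hone k0 (k0 + 1 + k) (by omega) h h0 h1
    · push Not at hex
      refine ⟨0, by omega, ?_⟩
      intro k hk h
      have := hex k hk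
      simpa using this
  have e1 : s + L < p.length := by omega
  have e2 : s + L < q.length := by omega
  refine ⟨sub p s L, sub q s L, nb_sub hp e1, nb_sub hq e2, length_sub e1, length_sub e2, ?_, ?_⟩
  · apply List.ext_getElem
    · rw [List.length_map, List.length_map, length_ed_sub e1, length_ed_sub e2]
    · intro k hk hk'
      rw [List.length_map, length_ed_sub e1] at hk
      rw [List.getElem_map, List.getElem_map, getElem_ed_sub e1 k hk, getElem_ed_sub e2 k hk]
      exact map_getElem hw _ _ _
  · intro k hk h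
    rw [List.getElem?_eq_getElem (by rw [length_ed_sub e1]; exact hk),
      List.getElem?_eq_getElem (by rw [length_ed_sub e2]; exact hk), Option.some.injEq,
      getElem_ed_sub e1 k hk, getElem_ed_sub e2 k hk] at h
    exact hsk k hk (by omega) h

/-- choice of the determined edges -/
theorem exists_D {E : Type} [DecidableEq E] (L : ℕ) (a b : Fin L → E) (ha : Function.Injective a)
    (hb : Function.Injective b) (hab : ∀ k, a k ≠ b k) (e : E) (he : ∃ k, a k = e ∨ b k = e) :
    ∃ D : Finset E, e ∈ D ∧ (∀ x ∈ D, ∃ k, a k = x ∨ b k = x) ∧ L ≤ 3 * D.card ∧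
      ∀ x ∈ D, ∃ y, y ∉ D ∧ ∃ k, (x = a k ∧ y = b k) ∨ (x = b k ∧ y = a k) := by
  classical
  obtain ⟨k0, hk0⟩ := he
  set F : Finset (Finset (Fin L)) := univ.filter (fun K => k0 ∈ K ∧ ∀ k ∈ K, ∀ k' ∈ K, k ≠ k' →
    a k ≠ b k') with hF
  obtain ⟨K, hK, hmax⟩ := Finset.exists_max_image F Finset.card ⟨{k0}, by
    simp only [hF, mem_filter, mem_univ, true_and, mem_singleton, forall_eq]
    intro h; exact absurd rfl h⟩
  obtain ⟨-, hk0K, hKind⟩ := mem_filter.1 hK
  have hcov : ∀ k, k ∉ K → (∃ k' ∈ K, a k = b k') ∨ (∃ k' ∈ K, b k = a k') := by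
    intro k hk
    by_contra hcon
    push Not at hcon
    obtain ⟨h1, h2⟩ := hcon
    have h3 : insert k K ∈ F := by
      simp only [hF, mem_filter, mem_univ, true_and, mem_insert]
      refine ⟨Or.inr hk0K, ?_⟩
      rintro i (rfl | hi) j (rfl | hj) hij
      · exact absurd rfl hij
      · exact h1 j hj
      · exact fun h => h2 i hi h.symm
      · exact hKind i hi j hj hij
    have h4 := hmax _ h3
    rw [Finset.card_insert_of_notMem hk] at h4
    omega
  have hcard : L ≤ 3 * K.card := by
    have h1 : (univ : Finset (Fin L)) ⊆ K ∪ (K.biUnion (fun k' => univ.filter (fun k => a k = b k')) ∪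
        K.biUnion (fun k' => univ.filter (fun k => b k = a k'))) := by
      intro k _
      by_cases hk : k ∈ K
      · exact mem_union_left _ hk
      · apply mem_union_right
        rcases hcov k hk with ⟨k', hk', h⟩ | ⟨k', hk', h⟩
        · exact mem_union_left _ (mem_biUnion.2 ⟨k', hk', mem_filter.2 ⟨mem_univ _, h⟩⟩)
        · exact mem_union_right _ (mem_biUnion.2 ⟨k', hk', mem_filter.2 ⟨mem_univ _, h⟩⟩)
    have h2 : (K.biUnion (fun k' => univ.filter (fun k => a k = b k'))).card ≤ K.card := by
      refine Finset.card_biUnion_le.trans ((Finset.sum_le_card_nsmul _ _ 1 ?_).trans (by simp))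
      intro k' _
      rw [Finset.card_le_one]
      intro i hi j hj
      exact ha ((mem_filter.1 hi).2.trans (mem_filter.1 hj).2.symm)
    have h3 : (K.biUnion (fun k' => univ.filter (fun k => b k = a k'))).card ≤ K.card := by
      refine Finset.card_biUnion_le.trans ((Finset.sum_le_card_nsmul _ _ 1 ?_).trans (by simp))
      intro k' _
      rw [Finset.card_le_one]
      intro i hi j hj
      exact hb ((mem_filter.1 hi).2.trans (mem_filter.1 hj).2.symm)
    have h4 := Finset.card_le_card h1
    rw [Finset.card_univ, Fintype.card_fin] at h4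
    have h5 := Finset.card_union_le K (K.biUnion (fun k' => univ.filter (fun k => a k = b k')) ∪
        K.biUnion (fun k' => univ.filter (fun k => b k = a k')))
    have h6 := Finset.card_union_le (K.biUnion (fun k' => univ.filter (fun k => a k = b k')))
      (K.biUnion (fun k' => univ.filter (fun k => b k = a k')))
    omega
  let σ : Fin L → Prop := fun k => k = k0 ∧ a k0 ≠ e
  let x : Fin L → E := fun k => if σ k then b k else a k
  let y : Fin L → E := fun k => if σ k then a k else b k
  have hxy : ∀ k, (x k = a k ∧ y k = b k) ∨ (x k = b k ∧ y k = a k) := by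
    intro k
    by_cases h : σ k
    · right; simp [x, y, h]
    · left; simp [x, y, h]
  have hx0 : x k0 = e := by
    by_cases h : a k0 = e
    · have : ¬ σ k0 := fun h' => h'.2 h
      simp only [x, this, if_false]; exact h
    · have : σ k0 := ⟨rfl, h⟩
      simp only [x, this, if_true]
      exact hk0.resolve_left h
  have hxx : ∀ k ∈ K, ∀ k' ∈ K, k ≠ k' → x k ≠ x k' := by
    intro k hk k' hk' hne h
    rcases hxy k with ⟨h1, -⟩ | ⟨h1, -⟩ <;> rcases hxy k' with ⟨h2, -⟩ | ⟨h2, -⟩ <;>
      rw [h1, h2] at h
    · exact hne (ha h)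
    · exact hKind k hk k' hk' hne h
    · exact hKind k' hk' k hk (Ne.symm hne) h.symm
    · exact hne (hb h)
  have hyx : ∀ k ∈ K, ∀ k' ∈ K, y k ≠ x k' := by
    intro k hk k' hk' h
    by_cases hne : k = k'
    · subst hne
      rcases hxy k with ⟨h1, h2⟩ | ⟨h1, h2⟩
      · rw [h1, h2] at h; exact hab k h.symm
      · rw [h1, h2] at h; exact hab k h
    · rcases hxy k with ⟨-, h1⟩ | ⟨-, h1⟩ <;> rcases hxy k' with ⟨h2, -⟩ | ⟨h2, -⟩ <;>
        rw [h1, h2] at h
      · exact hKind k' hk' k hk (Ne.symm hne) h.symm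
      · exact hne (hb h)
      · exact hne (ha h)
      · exact hKind k hk k' hk' hne h
  refine ⟨K.image x, mem_image.2 ⟨k0, hk0K, hx0⟩, ?_, ?_, ?_⟩
  · intro z hz
    obtain ⟨k, hk, rfl⟩ := mem_image.1 hz
    rcases hxy k with ⟨h1, -⟩ | ⟨h1, -⟩
    · exact ⟨k, Or.inl h1.symm⟩
    · exact ⟨k, Or.inr h1.symm⟩
  · rw [Finset.card_image_of_injOn]
    · exact hcard
    · intro k hk k' hk' h
      by_contra hne
      exact hxx k hk k' hk' hne h
  · intro z hz
    obtain ⟨k, hk, rfl⟩ := mem_image.1 hz
    refine ⟨y k, ?_, k, ?_⟩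
    · intro h
      obtain ⟨k', hk', h'⟩ := mem_image.1 h
      exact hyx k hk k' hk' h'.symm
    · rcases hxy k with h | h
      · exact Or.inl h
      · exact Or.inr h

end TH444.FC
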