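import Mathlib

set_option autoImplicit false

/-! Rosenfeld counting: colourings avoiding a finite family of local events. -/

namespace TH444.FC

open Finset

section

variable {E C ι : Type} [Fintype E] [DecidableEq E] [Fintype C]

open Classical in
/-- good colourings of `U` (constant `c0` outside `U`) -/
noncomputable def good (ev : Finset ι) (supp : ι → Finset E) (bad : ι → (E → C) → Prop) (c0 : C)
    (U : Finset E) : Finset (E → C) :=
  univ.filter (fun c => (∀ x, x ∉ U → c x = c0) ∧ ∀ B ∈ ev, supp B ⊆ U → ¬ bad B c)

/-- Rosenfeld counting. -/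
theorem rosenfeld (ev : Finset ι) (supp : ι → Finset E) (bad : ι → (E → C) → Prop)
    [Nonempty C]
    (hne : ∀ B ∈ ev, (supp B).Nonempty)
    (hloc : ∀ B ∈ ev, ∀ c c' : E → C, (∀ x ∈ supp B, c x = c' x) → bad B c → bad B c')
    (D : ι → E → Finset E) (hDe : ∀ B ∈ ev, ∀ e ∈ supp B, e ∈ D B e)
    (hDs : ∀ B ∈ ev, ∀ e ∈ supp B, D B e ⊆ supp B)
    (hdet : ∀ B ∈ ev, ∀ e ∈ supp B, ∀ c c' : E → C, bad B c → bad B c' →
      (∀ x, x ∉ D B e → c x = c' x) → c = c')
    (b : ℝ) (hb : 0 < b)
    (hsum : ∀ e, ∑ B ∈ ev, (if e ∈ supp B then b * (1 / b) ^ (D B e).card else 0) ≤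
      Fintype.card C - b) :
    ∃ c : E → C, ∀ B ∈ ev, ¬ bad B c := by
  classical
  obtain ⟨c0⟩ := ‹Nonempty C›
  set N : Finset E → ℝ := fun U => ((good ev supp bad c0 U).card : ℝ) with hN
  have hmem : ∀ U c, c ∈ good ev supp bad c0 U ↔
      (∀ x, x ∉ U → c x = c0) ∧ ∀ B ∈ ev, supp B ⊆ U → ¬ bad B c := by
    intro U c
    simp [good]
  -- the step
  have step : ∀ U : Finset E, ∀ e ∈ U,
      (∀ U' ⊆ U.erase e, b ^ ((U.erase e) \ U').card * N U' ≤ N (U.erase e)) →
      b * N (U.erase e) ≤ N U := by
    intro U e he IH
    set U₁ := U.erase e with hU₁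
    have heU₁ : e ∉ U₁ := by simp [hU₁]
    set X : Finset ((E → C) × C) := (good ev supp bad c0 U₁) ×ˢ (univ : Finset C) with hX
    let f : (E → C) × C → (E → C) := fun x => Function.update x.1 e x.2
    have hfinj : Set.InjOn f X := by
      rintro ⟨c, a⟩ hc ⟨c', a'⟩ hc' h
      have hc1 : c ∈ good ev supp bad c0 U₁ := (Finset.mem_product.1 hc).1
      have hc1' : c' ∈ good ev supp bad c0 U₁ := (Finset.mem_product.1 hc').1
      have h1 : a = a' := by
        have := congrFun h e
        simpa [f] using this
      have h2 : c = c' := by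
        funext x
        by_cases hx : x = e
        · subst hx
          rw [((hmem _ _).1 hc1).1 _ heU₁, ((hmem _ _).1 hc1').1 _ heU₁]
        · have := congrFun h x
          simpa [f, hx] using this
      rw [h1, h2]
    let bs : ι → Finset ((E → C) × C) := fun B => X.filter (fun x => bad B (f x))
    set ev' := ev.filter (fun B => supp B ⊆ U ∧ e ∈ supp B) with hev'
    have hcover : X ⊆ X.filter (fun x => f x ∈ good ev supp bad c0 U) ∪ ev'.biUnion bs := by
      intro x hx
      by_cases hg : f x ∈ good ev supp bad c0 U
      · exact mem_union_left _ (mem_filter.2 ⟨hx, hg⟩)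
      · apply mem_union_right
        have hx1 : x.1 ∈ good ev supp bad c0 U₁ := (Finset.mem_product.1 hx).1
        have h1 : ∀ y, y ∉ U → f x y = c0 := by
          intro y hy
          have hye : y ≠ e := fun h => hy (h ▸ he)
          change Function.update x.1 e x.2 y = c0
          rw [Function.update_of_ne hye]
          exact ((hmem _ _).1 hx1).1 y (fun h => hy (Finset.mem_of_mem_erase h))
        rw [hmem] at hg
        push Not at hg
        obtain ⟨B, hB, hBU, hBbad⟩ := hg h1
        have heB : e ∈ supp B := by
          by_contra hcon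
          have h2 : bad B x.1 := by
            apply hloc B hB (f x) x.1 _ hBbad
            intro y hy
            change Function.update x.1 e x.2 y = _
            rw [Function.update_of_ne (fun h => hcon (by rw [← h]; exact hy))]
          exact ((hmem _ _).1 hx1).2 B hB (fun y hy => Finset.mem_erase.2
            ⟨fun h => hcon (by rw [← h]; exact hy), hBU hy⟩) h2
        exact mem_biUnion.2 ⟨B, mem_filter.2 ⟨hB, hBU, heB⟩, mem_filter.2 ⟨hx, hBbad⟩⟩
    have hc1 : (X.filter (fun x => f x ∈ good ev supp bad c0 U)).card ≤
        (good ev supp bad c0 U).card := by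
      apply Finset.card_le_card_of_injOn f
      · intro x hx
        exact (mem_filter.1 hx).2
      · exact hfinj.mono (fun x hx => (mem_filter.1 hx).1)
    have hc2 : ∀ B ∈ ev', ((bs B).card : ℝ) ≤ b * (1 / b) ^ (D B e).card * N U₁ := by
      intro B hB
      obtain ⟨hBev, hBU, heB⟩ := mem_filter.1 hB
      set DD := D B e with hDD
      have hD1 : e ∈ DD := hDe B hBev e heB
      have hD2 : DD ⊆ U := (hDs B hBev e heB).trans hBU
      have h1 : (bs B).card ≤ (good ev supp bad c0 (U \ DD)).card := by
        apply Finset.card_le_card_of_injOn (fun x => fun y => if y ∈ DD then c0 else f x y)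
        · intro x hx
          obtain ⟨hxX, hxbad⟩ := mem_filter.1 hx
          have hx1 : x.1 ∈ good ev supp bad c0 U₁ := (Finset.mem_product.1 hxX).1
          rw [Finset.mem_coe, hmem]
          refine ⟨?_, ?_⟩
          · intro y hy
            by_cases hyD : y ∈ DD
            · simp [hyD]
            · have hyU : y ∉ U := fun h => hy (mem_sdiff.2 ⟨h, hyD⟩)
              have hye : y ≠ e := fun h => hyU (h ▸ he)
              simp only [hyD, if_false]
              change Function.update x.1 e x.2 y = c0
              rw [Function.update_of_ne hye]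
              exact ((hmem _ _).1 hx1).1 y (fun h => hyU (Finset.mem_of_mem_erase h))
          · intro B' hB' hB'U hbad
            have hne : ∀ y ∈ supp B', y ≠ e := by
              intro y hy h
              exact (mem_sdiff.1 (hB'U hy)).2 (h ▸ hD1)
            have h2 : bad B' x.1 := by
              apply hloc B' hB' _ x.1 _ hbad
              intro y hy
              have hyD := (mem_sdiff.1 (hB'U hy)).2
              simp only [hyD, if_false]
              change Function.update x.1 e x.2 y = _
              rw [Function.update_of_ne (hne y hy)]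
            exact ((hmem _ _).1 hx1).2 B' hB' (fun y hy => Finset.mem_erase.2
              ⟨hne y hy, (mem_sdiff.1 (hB'U hy)).1⟩) h2
        · intro x hx x' hx' h
          obtain ⟨hxX, hxbad⟩ := mem_filter.1 hx
          obtain ⟨hxX', hxbad'⟩ := mem_filter.1 hx'
          apply hfinj hxX hxX'
          apply hdet B hBev e heB _ _ hxbad hxbad'
          intro y hy
          have := congrFun h y
          have hy' : y ∉ DD := hy
          simpa [hy'] using this
      have h2 := IH (U \ DD) (by
        intro y hy
        obtain ⟨hyU, hyD⟩ := mem_sdiff.1 hy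
        exact Finset.mem_erase.2 ⟨fun h => hyD (h ▸ hD1), hyU⟩)
      have h3 : (U₁ \ (U \ DD)).card + 1 = DD.card := by
        have : U₁ \ (U \ DD) = DD.erase e := by
          ext y
          simp only [hU₁, mem_sdiff, mem_erase, not_and, not_not]
          constructor
          · rintro ⟨⟨h1, h2⟩, h3⟩
            exact ⟨h1, h3 h2⟩
          · rintro ⟨h1, h2⟩
            exact ⟨⟨h1, hD2 h2⟩, fun _ => h2⟩
        rw [this]
        exact Finset.card_erase_add_one hD1
      have h4 : ((bs B).card : ℝ) ≤ N (U \ DD) := Nat.cast_le.2 h1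
      refine h4.trans ?_
      rw [← h3]
      have h5 : b * (1 / b) ^ ((U₁ \ (U \ DD)).card + 1) = (b ^ (U₁ \ (U \ DD)).card)⁻¹ := by
        rw [one_div, inv_pow, pow_succ, mul_inv]
        field_simp
      rw [h5, ← div_eq_inv_mul, le_div_iff₀ (by positivity), mul_comm]
      exact h2
    have hXcard : (X.card : ℝ) = Fintype.card C * N U₁ := by
      rw [hX, Finset.card_product, Finset.card_univ]
      push_cast
      ring
    have h5 : (X.card : ℝ) ≤ N U + ∑ B ∈ ev', ((bs B).card : ℝ) := by
      have h6 := (Finset.card_le_card hcover).trans (Finset.card_union_le _ _)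
      have h7 := Finset.card_biUnion_le (s := ev') (t := bs)
      have h8 : X.card ≤ (good ev supp bad c0 U).card + ∑ B ∈ ev', (bs B).card := by omega
      have h9 : (X.card : ℝ) ≤ (((good ev supp bad c0 U).card + ∑ B ∈ ev', (bs B).card : ℕ) : ℝ) :=
        Nat.cast_le.2 h8
      rw [Nat.cast_add, Nat.cast_sum] at h9
      exact h9
    have h9 : ∑ B ∈ ev', ((bs B).card : ℝ) ≤ (Fintype.card C - b) * N U₁ := by
      calc ∑ B ∈ ev', ((bs B).card : ℝ) ≤ ∑ B ∈ ev', b * (1 / b) ^ (D B e).card * N U₁ :=
            Finset.sum_le_sum hc2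
        _ = (∑ B ∈ ev', b * (1 / b) ^ (D B e).card) * N U₁ := by rw [Finset.sum_mul]
        _ ≤ (Fintype.card C - b) * N U₁ := by
            apply mul_le_mul_of_nonneg_right _ (by positivity)
            refine le_trans ?_ (hsum e)
            rw [← Finset.sum_filter]
            apply Finset.sum_le_sum_of_subset_of_nonneg
            · intro B hB
              obtain ⟨h1, -, h3⟩ := mem_filter.1 hB
              exact mem_filter.2 ⟨h1, h3⟩
            · intro B _ _
              positivity
    rw [hXcard] at h5
    linarith
  -- all sets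
  have claim : ∀ U : Finset E, ∀ U' ⊆ U, b ^ (U \ U').card * N U' ≤ N U := by
    intro U
    induction U using Finset.strongInduction with
    | H U ih =>
      intro U' hU'
      by_cases heq : U' = U
      · subst heq; simp
      · obtain ⟨e, heU, heU'⟩ := Finset.exists_of_ssubset (Finset.ssubset_iff_subset_ne.2 ⟨hU', heq⟩)
        have h1 := step U e heU (ih _ (Finset.erase_ssubset heU))
        have h2 := ih (U.erase e) (Finset.erase_ssubset heU) U' (by
          intro y hy
          exact Finset.mem_erase.2 ⟨fun h => heU' (h ▸ hy), hU' hy⟩)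
        have h3 : (U \ U').card = (U.erase e \ U').card + 1 := by
          have : U.erase e \ U' = (U \ U').erase e := by
            ext y
            simp only [mem_sdiff, mem_erase]
            tauto
          rw [this]
          exact (Finset.card_erase_add_one (mem_sdiff.2 ⟨heU, heU'⟩)).symm
        rw [h3, pow_succ]
        calc b ^ (U.erase e \ U').card * b * N U' = b * (b ^ (U.erase e \ U').card * N U') := by ring
          _ ≤ b * N (U.erase e) := mul_le_mul_of_nonneg_left h2 hb.le
          _ ≤ N U := h1
  have h1 := claim univ ∅ (Finset.empty_subset _)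
  have h2 : (1 : ℝ) ≤ N ∅ := by
    have : (fun _ => c0) ∈ good ev supp bad c0 ∅ := by
      rw [hmem]
      refine ⟨fun _ _ => rfl, fun B hB hBs _ => ?_⟩
      exact (hne B hB).ne_empty (Finset.subset_empty.1 hBs)
    have h3 := Finset.card_pos.2 ⟨_, this⟩
    change (1 : ℝ) ≤ ((good ev supp bad c0 ∅).card : ℝ)
    exact Nat.one_le_cast.2 h3
  have h3 : 0 < N univ := lt_of_lt_of_le (by positivity) h1
  have h4 : 0 < (good ev supp bad c0 univ).card := Nat.cast_pos.1 h3
  obtain ⟨c, hc⟩ := Finset.card_pos.1 h4
  exact ⟨c, fun B hB => ((hmem _ _).1 hc).2 B hB (Finset.subset_univ _)⟩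

end

end TH444.FC
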