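import Mathlib
import Pool.Agent.TH444.FC.Walk
import Pool.Agent.TH444.FC.NB
import Pool.Agent.TH444.FC.Ros

set_option autoImplicit false

/-! Colouring the edges of one graph of large girth. -/

namespace TH444.FC

open Finset
open Pool.Agent.TH950.FC (NBWalk word)

section numeric

lemma succ_le_pow400 (l : ℕ) : l + 1 ≤ 400 ^ l := by
  have h := Nat.lt_pow_self (n := l) (show 1 < 400 by norm_num)
  omega

lemma numB (l i : ℕ) (hl : 100 + i < l) :
    ((l + 1) * 400 ^ l) * (4 * 400 ^ (100 * l) * 400 ^ l) * 400 ^ 2000 * 2 ^ (i + 1) ≤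
      (400 ^ 2000) ^ l := by
  have h1 := succ_le_pow400 l
  have h2 : 4 ≤ 400 ^ l := by
    calc 4 ≤ 400 ^ 1 := by norm_num
      _ ≤ 400 ^ l := Nat.pow_le_pow_right (by norm_num) (by omega)
  have h3 : 2 ^ (i + 1) ≤ 400 ^ l := by
    calc 2 ^ (i + 1) ≤ 400 ^ (i + 1) := Nat.pow_le_pow_left (by norm_num) _
      _ ≤ 400 ^ l := Nat.pow_le_pow_right (by norm_num) (by omega)
  calc ((l + 1) * 400 ^ l) * (4 * 400 ^ (100 * l) * 400 ^ l) * 400 ^ 2000 * 2 ^ (i + 1)
      ≤ (400 ^ l * 400 ^ l) * (400 ^ l * 400 ^ (100 * l) * 400 ^ l) * 400 ^ 2000 * 400 ^ l := by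
        gcongr
    _ = 400 ^ (105 * l + 2000) := by
        rw [← pow_add, ← pow_add, ← pow_add, ← pow_add, ← pow_add, ← pow_add]
        congr 1
        ring
    _ ≤ (400 ^ 2000) ^ l := by
        rw [← pow_mul]
        exact Nat.pow_le_pow_right (by norm_num) (by omega)

lemma numC (L g d : ℕ) (hL : 50 ≤ L) (hg : g ≤ 200 * L + 200) (hd : L ≤ 3 * d) :
    (2 * (((L + 1) * 400 ^ L) * (4 * 400 ^ g * 400 ^ L))) * 400 ^ 2000 ≤ (400 ^ 2000) ^ d := by
  have h1 := succ_le_pow400 L
  have h2 : 8 ≤ 400 ^ L := by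
    calc 8 ≤ 400 ^ 1 := by norm_num
      _ ≤ 400 ^ L := Nat.pow_le_pow_right (by norm_num) (by omega)
  calc (2 * (((L + 1) * 400 ^ L) * (4 * 400 ^ g * 400 ^ L))) * 400 ^ 2000
      = 8 * (((L + 1) * 400 ^ L) * (400 ^ g * 400 ^ L)) * 400 ^ 2000 := by ring
    _ ≤ 400 ^ L * ((400 ^ L * 400 ^ L) * (400 ^ g * 400 ^ L)) * 400 ^ 2000 := by gcongr
    _ = 400 ^ (4 * L + g + 2000) := by
        rw [← pow_add, ← pow_add, ← pow_add, ← pow_add, ← pow_add]
        congr 1
        ring
    _ ≤ (400 ^ 2000) ^ d := by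
        rw [← pow_mul]
        exact Nat.pow_le_pow_right (by norm_num) (by omega)

end numeric

lemma mem_edges_of {V : Type} (p : List V) (e : Sym2 V) (h : e ∈ ed p) :
    ∀ x y, e = s(x, y) → x ∈ p := by
  rintro x y rfl
  exact mem_of_mem_ed h

lemma exists_DC {V C : Type} [DecidableEq V] {L : ℕ} {p q : List V} (hp : (ed p).Nodup)
    (hq : (ed q).Nodup) (hpl : p.length = L + 1) (hql : q.length = L + 1)
    (hne : ∀ k < L, (ed p)[k]? ≠ (ed q)[k]?) (e : Sym2 V) (he : e ∈ ed p ∨ e ∈ ed q) :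
    ∃ D : Finset (Sym2 V), e ∈ D ∧ D ⊆ (ed p).toFinset ∪ (ed q).toFinset ∧ L ≤ 3 * D.card ∧
      ∀ c c' : Sym2 V → C, (ed p).map c = (ed q).map c → (ed p).map c' = (ed q).map c' →
        (∀ x, x ∉ D → c x = c' x) → c = c' := by
  have hpe : (ed p).length = L := by rw [length_ed, hpl]; rfl
  have hqe : (ed q).length = L := by rw [length_ed, hql]; rfl
  obtain ⟨D, h1, h2, h3, h4⟩ := exists_D L (fun k => (ed p)[k.1]'(by rw [hpe]; exact k.2))
    (fun k => (ed q)[k.1]'(by rw [hqe]; exact k.2))
    (by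
      intro i j h
      exact Fin.ext ((List.Nodup.getElem_inj_iff hp).1 h))
    (by
      intro i j h
      exact Fin.ext ((List.Nodup.getElem_inj_iff hq).1 h))
    (by
      intro k h
      apply hne k k.2
      rw [List.getElem?_eq_getElem (by rw [hpe]; exact k.2),
        List.getElem?_eq_getElem (by rw [hqe]; exact k.2)]
      exact congrArg some h) e (by
      rcases he with he | he
      · obtain ⟨k, hk, hke⟩ := List.mem_iff_getElem.1 he
        exact ⟨⟨k, by rw [hpe] at hk; exact hk⟩, Or.inl hke⟩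
      · obtain ⟨k, hk, hke⟩ := List.mem_iff_getElem.1 he
        exact ⟨⟨k, by rw [hqe] at hk; exact hk⟩, Or.inr hke⟩)
  refine ⟨D, h1, ?_, h3, ?_⟩
  · intro x hx
    rw [mem_union, List.mem_toFinset, List.mem_toFinset]
    obtain ⟨k, h | h⟩ := h2 x hx
    · left; rw [← h]; exact List.getElem_mem _
    · right; rw [← h]; exact List.getElem_mem _
  · intro c c' hc hc' hcc
    funext x
    by_cases hx : x ∈ D
    · obtain ⟨y, hy, k, h⟩ := h4 x hx
      have e1 := map_getElem hc k (by rw [hpe]; exact k.2) (by rw [hqe]; exact k.2)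
      have e2 := map_getElem hc' k (by rw [hpe]; exact k.2) (by rw [hqe]; exact k.2)
      have e3 := hcc y hy
      rcases h with ⟨ha, hb⟩ | ⟨ha, hb⟩
      · rw [← ha, ← hb] at e1 e2
        rw [e1, e3, e2]
      · rw [← ha, ← hb] at e1 e2
        rw [← e1, e3, e2]
    · exact hcc x hx

lemma sum_half (j : ℕ) : ∑ i ∈ range j, (1 / 2 : ℝ) ^ (i + 1) ≤ 1 := by
  have h : ∑ i ∈ range j, (1 / 2 : ℝ) ^ (i + 1) = 1 - (1 / 2 : ℝ) ^ j := by
    induction j with
    | zero => simp
    | succ j ih => rw [Finset.sum_range_succ, ih, pow_succ]; ring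
  rw [h]
  have : (0 : ℝ) ≤ (1 / 2 : ℝ) ^ j := by positivity
  linarith

open Classical in
/-- colouring one graph -/
theorem exists_single {V : Type} [Fintype V] (G : SimpleGraph V) (m b g : ℕ)
    (hb0 : 0 < b)
    (hbB : ∀ l i : ℕ, 100 + i < l →
      ((l + 1) * 400 ^ l) * (4 * 400 ^ (100 * l) * 400 ^ l) * b * 2 ^ (i + 1) ≤ b ^ l)
    (hbC : ∀ L g d : ℕ, 50 ≤ L → g ≤ 200 * L + 200 → L ≤ 3 * d →
      (2 * (((L + 1) * 400 ^ L) * (4 * 400 ^ g * 400 ^ L))) * b ≤ b ^ d)
    (hm : m = b + 1602) (hg : 10000 ≤ g)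
    (hV : Fintype.card V ≤ 4 * 400 ^ g) (hΔ : ∀ v, (univ.filter (G.Adj v)).card ≤ 400)
    (hun : Hun G g) (j : ℕ) (l : ℕ → ℕ) (hl : ∀ i < j, 100 + i < l i) (hlg : ∀ i < j, l i < g)
    (F : ℕ → Finset (List (Fin m)))
    (hF : ∀ i < j, (F i).card ≤ 4 * 400 ^ (100 * l i) * 400 ^ (l i)) :
    ∃ c : Sym2 V → Fin m,
      (∀ u v w, G.Adj u v → G.Adj u w → v ≠ w → c s(u, v) ≠ c s(u, w)) ∧
      (∀ i < j, ∀ p, NBWalk G p → p.length = l i + 1 → (ed p).map c ∉ F i) ∧
      (∀ p q, NBWalk G p → NBWalk G q → p.length = g / 100 / 2 + 1 →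
        q.length = g / 100 / 2 + 1 → (∀ k < g / 100 / 2, (ed p)[k]? ≠ (ed q)[k]?) →
        (ed p).map c ≠ (ed q).map c) := by
  set L := g / 100 / 2 with hL
  have hL50 : 50 ≤ L := by omega
  have hLg : L < g := by omega
  have hbR : (0 : ℝ) < b := by exact_mod_cast hb0
  have hb1 : (1 / b : ℝ) ≤ 1 := by
    rw [div_le_one hbR]; exact_mod_cast hb0
  have : Nonempty (Fin m) := ⟨⟨0, by omega⟩⟩
  -- chain property of non-backtracking walks
  have hchain : ∀ p, NBWalk G p → p.IsChain G.Adj := by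
    intro p hp
    rw [List.isChain_iff_getElem]
    exact fun i hi => hp.2.1 i hi
  set Wn : ℕ → Finset (List V) := fun r => (W G r).filter (NBWalk G) with hWn
  have hWnmem : ∀ r p, p ∈ Wn r ↔ p.length = r + 1 ∧ NBWalk G p := by
    intro r p
    simp only [hWn, mem_filter, mem_W]
    constructor
    · rintro ⟨⟨h1, -⟩, h2⟩; exact ⟨h1, h2⟩
    · rintro ⟨h1, h2⟩; exact ⟨⟨h1, hchain p h2⟩, h2⟩
  have hnod : ∀ r p, r < g → p ∈ Wn r → (ed p).Nodup ∧ (ed p).toFinset.card = r := by
    intro r p hr hp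
    obtain ⟨h1, h2⟩ := (hWnmem r p).1 hp
    have h3 := ed_nodup (nb_nodup hun h2 (by omega))
    refine ⟨h3, ?_⟩
    rw [List.toFinset_card_of_nodup h3, length_ed, h1]; rfl
  have hcount : ∀ r (e : Sym2 V), ((Wn r).filter (fun p => e ∈ ed p)).card ≤
      (r + 1) * 400 ^ r := by
    intro r e
    induction e using Sym2.ind with
    | _ x y =>
      refine le_trans (Finset.card_le_card ?_) (card_W_mem G hΔ r x)
      intro p hp
      obtain ⟨hp1, hp2⟩ := mem_filter.1 hp
      exact mem_filter.2 ⟨(mem_filter.1 hp1).1, mem_of_mem_ed hp2⟩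
  have hcountall : ∀ r, (Wn r).card ≤ 4 * 400 ^ g * 400 ^ r := by
    intro r
    refine (Finset.card_le_card (Finset.filter_subset _ _)).trans ((card_W G hΔ r).trans ?_)
    exact Nat.mul_le_mul_right _ hV
  -- the events
  let evA : Finset (V × V × V) := univ.filter (fun t => G.Adj t.1 t.2.1 ∧ G.Adj t.1 t.2.2 ∧
    t.2.1 ≠ t.2.2)
  let evB : Finset (Σ _ : ℕ, List V × List (Fin m)) :=
    (range j).sigma (fun i => (Wn (l i)) ×ˢ (F i))
  let evC : Finset (List V × List V) := ((Wn L) ×ˢ (Wn L)).filter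
    (fun t => ∀ k < L, (ed t.1)[k]? ≠ (ed t.2)[k]?)
  have hDC : ∀ t ∈ evC, ∀ e ∈ (ed t.1).toFinset ∪ (ed t.2).toFinset, ∃ D : Finset (Sym2 V),
      e ∈ D ∧ D ⊆ (ed t.1).toFinset ∪ (ed t.2).toFinset ∧ L ≤ 3 * D.card ∧
      ∀ c c' : Sym2 V → Fin m, (ed t.1).map c = (ed t.2).map c →
        (ed t.1).map c' = (ed t.2).map c' → (∀ x, x ∉ D → c x = c' x) → c = c' := by
    intro t ht e he
    obtain ⟨ht1, ht2⟩ := mem_filter.1 ht
    obtain ⟨hp, hq⟩ := mem_product.1 ht1
    rw [mem_union, List.mem_toFinset, List.mem_toFinset] at he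
    exact exists_DC (hnod L _ hLg hp).1 (hnod L _ hLg hq).1 ((hWnmem _ _).1 hp).1
      ((hWnmem _ _).1 hq).1 ht2 e he
  choose! DC hDC1 hDC2 hDC3 hDC4 using hDC
  let ev : Finset ((V × V × V) ⊕ ((Σ _ : ℕ, List V × List (Fin m)) ⊕ (List V × List V))) :=
    evA.disjSum (evB.disjSum evC)
  let supp : (V × V × V) ⊕ ((Σ _ : ℕ, List V × List (Fin m)) ⊕ (List V × List V)) →
      Finset (Sym2 V) :=
    Sum.elim (fun t => {s(t.1, t.2.1), s(t.1, t.2.2)})
      (Sum.elim (fun t => (ed t.2.1).toFinset) (fun t => (ed t.1).toFinset ∪ (ed t.2).toFinset))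
  let bad : (V × V × V) ⊕ ((Σ _ : ℕ, List V × List (Fin m)) ⊕ (List V × List V)) →
      (Sym2 V → Fin m) → Prop :=
    Sum.elim (fun t c => c s(t.1, t.2.1) = c s(t.1, t.2.2))
      (Sum.elim (fun t c => (ed t.2.1).map c = t.2.2) (fun t c => (ed t.1).map c = (ed t.2).map c))
  let D : (V × V × V) ⊕ ((Σ _ : ℕ, List V × List (Fin m)) ⊕ (List V × List V)) → Sym2 V →
      Finset (Sym2 V) :=
    Sum.elim (fun _ e => {e}) (Sum.elim (fun t _ => (ed t.2.1).toFinset) (fun t e => DC t e))
  have hmemA : ∀ t, Sum.inl t ∈ ev ↔ t ∈ evA := fun t => Finset.inl_mem_disjSum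
  have hmemB : ∀ t, Sum.inr (Sum.inl t) ∈ ev ↔ t ∈ evB := fun t => by
    simp only [ev, Finset.inr_mem_disjSum, Finset.inl_mem_disjSum]
  have hmemC : ∀ t, Sum.inr (Sum.inr t) ∈ ev ↔ t ∈ evC := fun t => by
    simp only [ev, Finset.inr_mem_disjSum]
  have hmap : ∀ (p : List V) (c c' : Sym2 V → Fin m), (∀ x ∈ ed p, c x = c' x) →
      (ed p).map c = (ed p).map c' := fun p c c' h => List.map_congr_left h
  have key : ∃ c : Sym2 V → Fin m, ∀ B ∈ ev, ¬ bad B c := by
    refine rosenfeld ev supp bad ?_ ?_ D ?_ ?_ ?_ (b : ℝ) hbR ?_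
    · -- nonempty supports
      rintro (t | t | t) ht
      · exact ⟨_, mem_insert_self _ _⟩
      · have ht' := (hmemB _).1 ht
        obtain ⟨h1, h2⟩ := mem_sigma.1 ht'
        have h3 := (mem_product.1 h2).1
        have h4 := (hnod _ _ (hlg _ (mem_range.1 h1)) h3).2
        apply Finset.card_pos.1
        change 0 < (ed t.2.1).toFinset.card
        rw [h4]
        have := hl _ (mem_range.1 h1)
        omega
      · have ht' := (hmemC _).1 ht
        obtain ⟨h1, h2⟩ := mem_filter.1 ht'
        have h3 := (mem_product.1 h1).1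
        have h4 := (hnod _ _ hLg h3).2
        have h5 : (ed t.1).toFinset.Nonempty := Finset.card_pos.1 (by rw [h4]; omega)
        exact h5.mono subset_union_left
    · -- locality
      rintro (t | t | t) _ c c' hcc h
      · change c' s(t.1, t.2.1) = c' s(t.1, t.2.2)
        rw [← hcc _ (mem_insert_self _ _), ← hcc _ (mem_insert_of_mem (mem_singleton_self _))]
        exact h
      · change (ed t.2.1).map c' = t.2.2
        rw [← hmap t.2.1 c c' (fun x hx => hcc x (List.mem_toFinset.2 hx))]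
        exact h
      · change (ed t.1).map c' = (ed t.2).map c'
        rw [← hmap t.1 c c' (fun x hx => hcc x (mem_union_left _ (List.mem_toFinset.2 hx))),
          ← hmap t.2 c c' (fun x hx => hcc x (mem_union_right _ (List.mem_toFinset.2 hx)))]
        exact h
    · -- e ∈ D
      rintro (t | t | t) ht e he
      · exact mem_singleton_self _
      · exact he
      · exact hDC1 t ((hmemC _).1 ht) e he
    · -- D ⊆ supp
      rintro (t | t | t) ht e he
      · intro x hx
        rw [mem_singleton.1 hx]; exact he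
      · exact Finset.Subset.refl _
      · exact hDC2 t ((hmemC _).1 ht) e he
    · -- determined
      rintro (t | t | t) ht e he c c' h h' hcc
      · have ht' := (mem_filter.1 ((hmemA _).1 ht)).2
        have hne : s(t.1, t.2.1) ≠ s(t.1, t.2.2) := by
          intro h0
          rw [Sym2.eq_iff] at h0
          rcases h0 with ⟨-, h0⟩ | ⟨h0, h0'⟩
          · exact ht'.2.2 h0
          · exact ht'.2.2 (h0'.trans h0)
        have hne' : ∀ x, x ≠ e → c x = c' x := fun x hx => hcc x (by
          change x ∉ ({e} : Finset (Sym2 V)); simpa using hx)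
        have he' : e = s(t.1, t.2.1) ∨ e = s(t.1, t.2.2) := by
          have : e ∈ ({s(t.1, t.2.1), s(t.1, t.2.2)} : Finset (Sym2 V)) := he
          simpa using this
        have h0 : c s(t.1, t.2.1) = c s(t.1, t.2.2) := h
        have h0' : c' s(t.1, t.2.1) = c' s(t.1, t.2.2) := h'
        funext x
        by_cases hx : x = e
        · rw [hx]
          rcases he' with he' | he'
          · rw [he', h0, h0']
            exact hne' _ (by rw [he']; exact hne.symm)
          · rw [he', ← h0, ← h0']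
            exact hne' _ (by rw [he']; exact hne)
        · exact hne' x hx
      · have h0 : (ed t.2.1).map c = t.2.2 := h
        have h0' : (ed t.2.1).map c' = t.2.2 := h'
        funext x
        by_cases hx : x ∈ ed t.2.1
        · have h1 : (ed t.2.1).map c = (ed t.2.1).map c' := h0.trans h0'.symm
          exact (List.map_inj_left.1 h1) x hx
        · exact hcc x (fun h2 => hx (List.mem_toFinset.1 h2))
      · exact hDC4 t ((hmemC _).1 ht) e he c c' h h' hcc
    · -- the sum
      intro e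
      rw [Finset.sum_disjSum, Finset.sum_disjSum, Fintype.card_fin]
      have hA : ∑ t ∈ evA, (if e ∈ supp (Sum.inl t) then
          (b : ℝ) * (1 / b) ^ (D (Sum.inl t) e).card else 0) ≤ 1600 := by
        rw [← Finset.sum_filter]
        have h1 : ∀ t ∈ evA.filter (fun t => e ∈ supp (Sum.inl t)),
            (b : ℝ) * (1 / b) ^ (D (Sum.inl t) e).card ≤ 1 := by
          intro t _
          change (b : ℝ) * (1 / b) ^ (({e} : Finset (Sym2 V))).card ≤ 1
          rw [card_singleton, pow_one, mul_one_div_cancel hbR.ne']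
        refine (Finset.sum_le_card_nsmul _ _ 1 h1).trans ?_
        rw [nsmul_eq_mul, mul_one]
        have h2 : (evA.filter (fun t => e ∈ supp (Sum.inl t))).card ≤ 1600 := by
          induction e using Sym2.ind with
          | _ x y =>
            set Nx := univ.filter (G.Adj x) with hNx
            set Ny := univ.filter (G.Adj y) with hNy
            have hsub : evA.filter (fun t => s(x, y) ∈ supp (Sum.inl t)) ⊆
                ((Nx.image (fun w => (x, y, w)) ∪ Ny.image (fun w => (y, x, w))) ∪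
                (Nx.image (fun v => (x, v, y)) ∪ Ny.image (fun v => (y, v, x)))) := by
              rintro ⟨u, v, w⟩ ht
              obtain ⟨h3, h4⟩ := mem_filter.1 ht
              obtain ⟨-, h5, h6, -⟩ := mem_filter.1 h3
              have h7 : s(x, y) = s(u, v) ∨ s(x, y) = s(u, w) := by
                have : s(x, y) ∈ ({s(u, v), s(u, w)} : Finset (Sym2 V)) := h4
                simpa using this
              simp only [mem_union, mem_image, hNx, hNy, mem_filter, mem_univ, true_and,
                Prod.mk.injEq]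
              rcases h7 with h7 | h7 <;> rw [Sym2.eq_iff] at h7 <;>
                rcases h7 with ⟨rfl, rfl⟩ | ⟨rfl, rfl⟩
              · exact Or.inl (Or.inl ⟨w, h6, rfl, rfl, rfl⟩)
              · exact Or.inl (Or.inr ⟨w, h6, rfl, rfl, rfl⟩)
              · exact Or.inr (Or.inl ⟨v, h5, rfl, rfl, rfl⟩)
              · exact Or.inr (Or.inr ⟨v, h5, rfl, rfl, rfl⟩)
            refine (Finset.card_le_card hsub).trans ?_
            refine (Finset.card_union_le _ _).trans ?_
            refine (add_le_add (Finset.card_union_le _ _) (Finset.card_union_le _ _)).trans ?_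
            have i1 := (Finset.card_image_le (s := Nx) (f := fun w => (x, y, w))).trans (hΔ x)
            have i2 := (Finset.card_image_le (s := Ny) (f := fun w => (y, x, w))).trans (hΔ y)
            have i3 := (Finset.card_image_le (s := Nx) (f := fun v => (x, v, y))).trans (hΔ x)
            have i4 := (Finset.card_image_le (s := Ny) (f := fun v => (y, v, x))).trans (hΔ y)
            omega
        exact_mod_cast h2
      have hB : ∑ t ∈ evB, (if e ∈ supp (Sum.inr (Sum.inl t)) then
          (b : ℝ) * (1 / b) ^ (D (Sum.inr (Sum.inl t)) e).card else 0) ≤ 1 := by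
        rw [Finset.sum_sigma]
        refine le_trans (Finset.sum_le_sum (g := fun i => (1 / 2 : ℝ) ^ (i + 1)) ?_) (sum_half j)
        intro i hi
        have hi' := mem_range.1 hi
        have h1 : ∀ t ∈ (Wn (l i)) ×ˢ (F i), (if e ∈ supp (Sum.inr (Sum.inl ⟨i, t⟩)) then
            (b : ℝ) * (1 / b) ^ (D (Sum.inr (Sum.inl ⟨i, t⟩)) e).card else 0) =
            (if e ∈ ed t.1 then (b : ℝ) * (1 / b) ^ (l i) else 0) := by
          intro t ht
          have h2 := (hnod _ _ (hlg i hi') (mem_product.1 ht).1).2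
          change (if e ∈ (ed t.1).toFinset then (b : ℝ) * (1 / b) ^ ((ed t.1).toFinset).card
            else 0) = _
          rw [h2]
          simp only [List.mem_toFinset]
        rw [Finset.sum_congr rfl h1, ← Finset.sum_filter, Finset.sum_const, nsmul_eq_mul]
        have h2 : (((Wn (l i)) ×ˢ (F i)).filter (fun t => e ∈ ed t.1)).card ≤
            ((l i + 1) * 400 ^ (l i)) * (4 * 400 ^ (100 * l i) * 400 ^ (l i)) := by
          have h3 : ((Wn (l i)) ×ˢ (F i)).filter (fun t => e ∈ ed t.1) ⊆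
              ((Wn (l i)).filter (fun p => e ∈ ed p)) ×ˢ (F i) := by
            intro t ht
            obtain ⟨h4, h5⟩ := mem_filter.1 ht
            obtain ⟨h6, h7⟩ := mem_product.1 h4
            exact mem_product.2 ⟨mem_filter.2 ⟨h6, h5⟩, h7⟩
          refine (Finset.card_le_card h3).trans ?_
          rw [Finset.card_product]
          exact Nat.mul_le_mul (hcount _ _) (hF i hi')
        have h3 := hbB (l i) i (hl i hi')
        have h4 : ((((Wn (l i)) ×ˢ (F i)).filter (fun t => e ∈ ed t.1)).card : ℝ) * b * 2 ^ (i + 1)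
            ≤ (b : ℝ) ^ (l i) := by
          have h5 : (((Wn (l i)) ×ˢ (F i)).filter (fun t => e ∈ ed t.1)).card * b * 2 ^ (i + 1) ≤
              b ^ (l i) := by
            refine le_trans ?_ h3
            gcongr
          exact_mod_cast h5
        rw [← mul_assoc, one_div_pow, mul_one_div, one_div_pow, div_le_div_iff₀ (by positivity)
          (by positivity), one_mul]
        exact h4
      have hC : ∑ t ∈ evC, (if e ∈ supp (Sum.inr (Sum.inr t)) then
          (b : ℝ) * (1 / b) ^ (D (Sum.inr (Sum.inr t)) e).card else 0) ≤ 1 := by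
        set d := (L + 2) / 3 with hd
        have hd3 : L ≤ 3 * d := by omega
        rw [← Finset.sum_filter]
        have h1 : ∀ t ∈ evC.filter (fun t => e ∈ supp (Sum.inr (Sum.inr t))),
            (b : ℝ) * (1 / b) ^ (D (Sum.inr (Sum.inr t)) e).card ≤ (b : ℝ) * (1 / b) ^ d := by
          intro t ht
          obtain ⟨h2, h3⟩ := mem_filter.1 ht
          have h4 : L ≤ 3 * (DC t e).card := hDC3 t h2 e h3
          change (b : ℝ) * (1 / b) ^ (DC t e).card ≤ _
          apply mul_le_mul_of_nonneg_left _ hbR.le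
          exact pow_le_pow_of_le_one (by positivity) hb1 (by omega)
        refine (Finset.sum_le_card_nsmul _ _ _ h1).trans ?_
        rw [nsmul_eq_mul]
        have h2 : (evC.filter (fun t => e ∈ supp (Sum.inr (Sum.inr t)))).card ≤
            2 * (((L + 1) * 400 ^ L) * (4 * 400 ^ g * 400 ^ L)) := by
          have h3 : evC.filter (fun t => e ∈ supp (Sum.inr (Sum.inr t))) ⊆
              (((Wn L).filter (fun p => e ∈ ed p)) ×ˢ (Wn L)) ∪
              ((Wn L) ×ˢ ((Wn L).filter (fun p => e ∈ ed p))) := by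
            intro t ht
            obtain ⟨h4, h5⟩ := mem_filter.1 ht
            obtain ⟨h6, -⟩ := mem_filter.1 h4
            obtain ⟨h7, h8⟩ := mem_product.1 h6
            have h9 : e ∈ (ed t.1).toFinset ∪ (ed t.2).toFinset := h5
            rw [mem_union, List.mem_toFinset, List.mem_toFinset] at h9
            rcases h9 with h9 | h9
            · exact mem_union_left _ (mem_product.2 ⟨mem_filter.2 ⟨h7, h9⟩, h8⟩)
            · exact mem_union_right _ (mem_product.2 ⟨h7, mem_filter.2 ⟨h8, h9⟩⟩)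
          refine (Finset.card_le_card h3).trans ((Finset.card_union_le _ _).trans ?_)
          rw [Finset.card_product, Finset.card_product]
          have i1 := hcount L e
          have i2 := hcountall L
          have i3 := Nat.mul_le_mul i1 i2
          have i4 := Nat.mul_le_mul i2 i1
          rw [mul_comm (4 * 400 ^ g * 400 ^ L)] at i4
          omega
        have h3 := hbC L g d hL50 (by omega) hd3
        have h4 : ((evC.filter (fun t => e ∈ supp (Sum.inr (Sum.inr t)))).card : ℝ) * b ≤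
            (b : ℝ) ^ d := by
          have h5 : (evC.filter (fun t => e ∈ supp (Sum.inr (Sum.inr t)))).card * b ≤ b ^ d := by
            refine le_trans ?_ h3
            gcongr
          exact_mod_cast h5
        rw [← mul_assoc, one_div_pow, mul_one_div, div_le_one (by positivity)]
        exact h4
      have hm' : (m : ℝ) - b = 1602 := by
        rw [hm]; push_cast; ring
      rw [hm']
      linarith
  obtain ⟨c, hc⟩ := key
  · refine ⟨c, ?_, ?_, ?_⟩
    · intro u v w h1 h2 h3
      exact hc (Sum.inl (u, v, w)) ((hmemA _).2 (mem_filter.2 ⟨mem_univ _, h1, h2, h3⟩))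
    · intro i hi p hp hpl hmem
      exact hc (Sum.inr (Sum.inl ⟨i, (p, (ed p).map c)⟩)) ((hmemB _).2
        (mem_sigma.2 ⟨mem_range.2 hi, mem_product.2 ⟨(hWnmem _ _).2 ⟨hpl, hp⟩, hmem⟩⟩)) rfl
    · intro p q hp hq hpl hql hne h
      exact hc (Sum.inr (Sum.inr (p, q))) ((hmemC _).2
        (mem_filter.2 ⟨mem_product.2 ⟨(hWnmem _ _).2 ⟨hpl, hp⟩, (hWnmem _ _).2 ⟨hql, hq⟩⟩,
          hne⟩)) h

end TH444.FC
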